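import Mathlib

set_option autoImplicit false

namespace Pool.Agent.P.MP_a0a898_co

/-- `D` is a dominating set of `G`: every vertex lies in `D` or has a neighbour in `D`. -/
def Dominating {V : Type} (G : SimpleGraph V) (D : Set V) : Prop :=
  ∀ v : V, v ∈ D ∨ ∃ u ∈ D, G.Adj v u

/-- `MoverWins G S`: in the snooker domination game on `G`, when `S` is the set of vertices picked
so far, the player whose turn it is can force a win. Either he picks an unpicked vertex that makes
the picked set dominating, or he picks an unpicked vertex `v` after which play goes on, no reply
`w` makes the picked set dominating, and after every reply he can again force a win. -/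
inductive MoverWins {V : Type} (G : SimpleGraph V) : Set V → Prop
  | finish (S : Set V) (v : V) (hv : v ∉ S) (hdom : Dominating G (insert v S)) : MoverWins G S
  | step (S : Set V) (v : V) (hv : v ∉ S) (hgo : ¬ Dominating G (insert v S))
      (hreply : ∀ w : V, w ∉ insert v S → ¬ Dominating G (insert w (insert v S)))
      (hnext : ∀ w : V, w ∉ insert v S → MoverWins G (insert w (insert v S))) : MoverWins G S

end Pool.Agent.P.MP_a0a898_co
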