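import Mathlib
import Pool.Agent.P.MP_a0a898_co.Defs

set_option autoImplicit false

namespace Pool.Agent.P.MP_a0a898_co.Race

open Pool.Agent.P.MP_a0a898_co Finset

variable {V : Type}

/-- `x` lies in the closed neighbourhood of `u`. -/
def Near (G : SimpleGraph V) (x u : V) : Prop := x = u ∨ G.Adj u x

/-- `u` is not yet dominated by `S`. -/
def Alive (G : SimpleGraph V) (S : Finset V) (u : V) : Prop := ∀ x, Near G x u → x ∉ S

/-- No single pick dominates everything that is left. -/
def NoCommon (G : SimpleGraph V) (S : Finset V) : Prop := ∀ x, ∃ u, Alive G S u ∧ ¬ Near G x u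

theorem near_comm (G : SimpleGraph V) (x u : V) : Near G x u ↔ Near G u x := by
  unfold Near
  constructor
  · rintro (h | h)
    · exact Or.inl h.symm
    · exact Or.inr h.symm
  · rintro (h | h)
    · exact Or.inl h.symm
    · exact Or.inr h.symm

theorem dom_iff (G : SimpleGraph V) (S : Finset V) :
    Dominating G (↑S : Set V) ↔ ∀ u, ¬ Alive G S u := by
  unfold Dominating Alive Near
  constructor
  · intro h u hu
    rcases h u with h1 | ⟨x, hx, hadj⟩
    · exact hu u (Or.inl rfl) (by simpa using h1)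
    · exact hu x (Or.inr hadj) (by simpa using hx)
  · intro h u
    by_contra hc
    push Not at hc
    apply h u
    rintro x (rfl | hx) hS
    · exact hc.1 (by simpa using hS)
    · exact hc.2 x (by simpa using hS) hx

theorem alive_insert [DecidableEq V] (G : SimpleGraph V) (S : Finset V) (x u : V) :
    Alive G (insert x S) u ↔ Alive G S u ∧ ¬ Near G x u := by
  unfold Alive
  constructor
  · intro h
    exact ⟨fun y hy hS => h y hy (mem_insert_of_mem hS), fun hx => h x hx (mem_insert_self _ _)⟩
  · rintro ⟨h1, h2⟩ y hy hS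
    rcases mem_insert.1 hS with rfl | hS
    · exact h2 hy
    · exact h1 y hy hS

open Classical in
/-- The closed neighbourhood as a finset. -/
noncomputable def nb [Fintype V] (G : SimpleGraph V) (x : V) : Finset V :=
  univ.filter (fun u => Near G x u)

theorem mem_nb [Fintype V] (G : SimpleGraph V) (x u : V) : u ∈ nb G x ↔ Near G x u := by
  unfold nb; simp

open Classical in
/-- The weight of the vertices not yet dominated. -/
noncomputable def aliveW [Fintype V] (G : SimpleGraph V) (w : V → ℕ) (S : Finset V) : ℕ :=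
  ∑ u ∈ univ.filter (fun u => Alive G S u), w u

theorem aliveW_insert [Fintype V] [DecidableEq V] (G : SimpleGraph V) (w : V → ℕ) (S : Finset V)
    (x : V) : aliveW G w S ≤ aliveW G w (insert x S) + ∑ u ∈ nb G x, w u := by
  classical
  unfold aliveW
  have h := sum_union_inter (s₁ := univ.filter (fun u => Alive G (insert x S) u)) (s₂ := nb G x)
    (f := w)
  have h2 : ∑ u ∈ univ.filter (fun u => Alive G S u), w u ≤
      ∑ u ∈ univ.filter (fun u => Alive G (insert x S) u) ∪ nb G x, w u := by
    apply sum_le_sum_of_subset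
    intro u hu
    simp only [mem_filter, mem_univ, true_and, mem_union, mem_nb, alive_insert] at hu ⊢
    by_cases hx : Near G x u
    · exact Or.inr hx
    · exact Or.inl ⟨hu, hx⟩
  omega

theorem noCommon_of_weight [Fintype V] (G : SimpleGraph V) (w : V → ℕ) (q : ℕ)
    (hq : ∀ x, ∑ u ∈ nb G x, w u ≤ q) (S : Finset V) (h : q < aliveW G w S) : NoCommon G S := by
  classical
  intro x
  by_contra hc
  push Not at hc
  have : aliveW G w S ≤ ∑ u ∈ nb G x, w u := by
    unfold aliveW
    apply sum_le_sum_of_subset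
    intro u hu
    simp only [mem_filter, mem_univ, true_and] at hu
    exact (mem_nb G x u).2 (hc u hu)
  have := hq x
  omega

theorem race_step [Fintype V] [DecidableEq V] (G : SimpleGraph V) (hV : Even (Fintype.card V))
    (Y : V → Prop) (D : Finset V) (w : V → ℕ) (q : ℕ)
    (hq : ∀ x, ∑ u ∈ nb G x, w u ≤ q)
    (hD : ∀ u, ¬ Y u → ∃ x ∈ D, Near G x u)
    (hpar : ∀ S : Finset V, Odd (Sᶜ).card → (∀ u, Alive G S u → Y u) → NoCommon G S →
      ∃ x, x ∉ S ∧ NoCommon G (insert x S)) :
    ∀ (n : ℕ) (S : Finset V), (Sᶜ).card = n → Even S.card → NoCommon G S →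
      ((∀ u, Alive G S u → Y u) ∨
        ∑ x ∈ D \ S, (q + ∑ u ∈ nb G x, w u) + q < aliveW G w S) →
      ∀ v, v ∉ S → ¬ Dominating G (insert v (↑S : Set V)) ∧ MoverWins G (insert v (↑S : Set V)) := by
  intro n
  induction n using Nat.strong_induction_on with
  | _ n ih =>
  intro S hn hev hNC hinv v hv
  have hcoe : (insert v (↑S : Set V)) = ↑(insert v S) := by simp
  have hnd : ¬ Dominating G (↑(insert v S) : Set V) := by
    rw [dom_iff]
    obtain ⟨u, hu, hx⟩ := hNC v
    intro h
    exact h u ((alive_insert G S v u).2 ⟨hu, hx⟩)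
  rw [hcoe]
  refine ⟨hnd, ?_⟩
  have hc1 : (insert v S).card = S.card + 1 := card_insert_of_notMem hv
  have hcc := card_add_card_compl S
  have hcc1 := card_add_card_compl (insert v S)
  -- a good reply wins
  have key : ∀ x, x ∉ insert v S → NoCommon G (insert x (insert v S)) →
      ((∀ u, Alive G (insert x (insert v S)) u → Y u) ∨
        ∑ y ∈ D \ insert x (insert v S), (q + ∑ u ∈ nb G y, w u) + q <
          aliveW G w (insert x (insert v S))) → MoverWins G (↑(insert v S) : Set V) := by
    intro x hx hNC2 hinv2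
    have hc2 : (insert x (insert v S)).card = (insert v S).card + 1 := card_insert_of_notMem hx
    have hcc2 := card_add_card_compl (insert x (insert v S))
    have hall := ih ((insert x (insert v S))ᶜ).card (by omega) (insert x (insert v S)) rfl
      (by rw [hc2, hc1]; obtain ⟨r, hr⟩ := hev; exact ⟨r + 1, by omega⟩) hNC2 hinv2
    have hcoe2 : (insert x (↑(insert v S) : Set V)) = ↑(insert x (insert v S)) := by simp
    refine MoverWins.step _ x (by simpa using hx) ?_ ?_ ?_
    · rw [hcoe2, dom_iff]
      obtain ⟨u, hu, -⟩ := hNC2 x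
      exact fun h => h u hu
    · intro y hy
      rw [hcoe2] at hy ⊢
      exact (hall y (by simpa using hy)).1
    · intro y hy
      rw [hcoe2] at hy ⊢
      exact (hall y (by simpa using hy)).2
  by_cases hY : ∀ u, Alive G (insert v S) u → Y u
  · by_cases hNC1 : NoCommon G (insert v S)
    · have hodd : Odd ((insert v S)ᶜ).card := by
        obtain ⟨r, hr⟩ := hev
        obtain ⟨s, hs⟩ := hV
        exact ⟨s - r - 1, by omega⟩
      obtain ⟨x, hx, hx2⟩ := hpar _ hodd hY hNC1
      exact key x hx hx2 (Or.inl fun u hu => hY u ((alive_insert G _ x u).1 hu).1)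
    · unfold NoCommon at hNC1
      push Not at hNC1
      obtain ⟨x, hx⟩ := hNC1
      rw [dom_iff] at hnd
      push Not at hnd
      obtain ⟨u0, hu0⟩ := hnd
      have hxS : x ∉ insert v S := hu0 x (hx u0 hu0)
      refine MoverWins.finish _ x (by simpa using hxS) ?_
      have hcoe2 : (insert x (↑(insert v S) : Set V)) = ↑(insert x (insert v S)) := by simp
      rw [hcoe2, dom_iff]
      intro u hu
      rw [alive_insert] at hu
      exact hu.2 (hx u hu.1)
  · push Not at hY
    obtain ⟨u0, hu0, hY0⟩ := hY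
    rcases hinv with h | h
    · exact absurd (h u0 ((alive_insert G S v u0).1 hu0).1) hY0
    obtain ⟨x, hxD, hx0⟩ := hD u0 hY0
    have hxS : x ∉ insert v S := hu0 x hx0
    have hw1 := aliveW_insert G w S v
    have hw2 := aliveW_insert G w (insert v S) x
    have hqv := hq v
    have hsub : insert x (D \ insert x (insert v S)) ⊆ D \ S := by
      intro y hy
      simp only [mem_insert, mem_sdiff, not_or] at hy hxS ⊢
      rcases hy with rfl | hy
      · exact ⟨hxD, hxS.2⟩
      · exact ⟨hy.1, hy.2.2.2⟩
    have hle := sum_le_sum_of_subset (f := fun y => q + ∑ u ∈ nb G y, w u) hsub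
    rw [sum_insert (by simp)] at hle
    have hfin : ∑ y ∈ D \ insert x (insert v S), (q + ∑ u ∈ nb G y, w u) + q <
        aliveW G w (insert x (insert v S)) := by omega
    exact key x hxS (noCommon_of_weight G w q hq _ (by omega)) (Or.inr hfin)

theorem race [Fintype V] [DecidableEq V] (G : SimpleGraph V) (hV : Even (Fintype.card V))
    (Y : V → Prop) (D : Finset V) (w : V → ℕ) (q : ℕ)
    (hq : ∀ x, ∑ u ∈ nb G x, w u ≤ q)
    (hD : ∀ u, ¬ Y u → ∃ x ∈ D, Near G x u)
    (hpar : ∀ S : Finset V, Odd (Sᶜ).card → (∀ u, Alive G S u → Y u) → NoCommon G S →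
      ∃ x, x ∉ S ∧ NoCommon G (insert x S))
    (hW : ∑ x ∈ D, (q + ∑ u ∈ nb G x, w u) + q < ∑ u, w u) (v : V) :
    ¬ Dominating G {v} ∧ MoverWins G {v} := by
  classical
  have h0 : aliveW G w ∅ = ∑ u, w u := by
    unfold aliveW
    apply sum_congr _ (fun _ _ => rfl)
    ext u
    simp [Alive]
  have h := race_step G hV Y D w q hq hD hpar _ ∅ rfl (by simp)
    (noCommon_of_weight G w q hq _ (by omega)) (Or.inr (by rw [h0, sdiff_empty]; exact hW)) v
    (by simp)
  simpa using h

theorem exists_outside [Fintype V] [DecidableEq V] (S T : Finset V) (hodd : Odd (Sᶜ).card)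
    (hT : T ⊆ Sᶜ) (hev : Even T.card) : ∃ x, x ∉ S ∧ x ∉ T := by
  by_contra hc
  push Not at hc
  have : T = Sᶜ := Subset.antisymm hT (fun x hx => hc x (mem_compl.1 hx))
  rw [this] at hev
  exact (Nat.not_even_iff_odd.2 hodd) hev

open Classical in
theorem parity [Fintype V] [DecidableEq V] (G : SimpleGraph V) (S : Finset V)
    (hodd : Odd (Sᶜ).card) (hNC : NoCommon G S)
    (h2 : ∀ u u', Alive G S u → Alive G S u' → Even ((nb G u).card + (nb G u').card))
    (h3 : (∀ u u', Alive G S u → Alive G S u' → ∃ x, Near G x u ∧ Near G x u') →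
      Even (univ.filter (fun x => ∃ u, Alive G S u ∧ Near G x u)).card) :
    ∃ x, x ∉ S ∧ NoCommon G (insert x S) := by
  by_cases h : ∀ u u', Alive G S u → Alive G S u' → ∃ x, Near G x u ∧ Near G x u'
  · obtain ⟨x, hx, hxT⟩ := exists_outside S _ hodd (by
      intro x hx
      simp only [mem_filter, mem_univ, true_and] at hx
      obtain ⟨u, hu, hxu⟩ := hx
      exact mem_compl.2 (hu x hxu)) (h3 h)
    refine ⟨x, hx, fun y => ?_⟩
    obtain ⟨u, hu, hy⟩ := hNC y
    refine ⟨u, (alive_insert G S x u).2 ⟨hu, fun hxu => hxT ?_⟩, hy⟩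
    simp only [mem_filter, mem_univ, true_and]
    exact ⟨u, hu, hxu⟩
  · push Not at h
    obtain ⟨u, u', hu, hu', hdis⟩ := h
    have hd : Disjoint (nb G u) (nb G u') := by
      rw [disjoint_left]
      intro x h1 h2
      exact hdis x ((near_comm G _ _).1 ((mem_nb G _ _).1 h1))
        ((near_comm G _ _).1 ((mem_nb G _ _).1 h2))
    obtain ⟨x, hx, hxT⟩ := exists_outside S (nb G u ∪ nb G u') hodd (by
      intro x hx
      rcases mem_union.1 hx with h1 | h1
      · exact mem_compl.2 (hu x ((near_comm G _ _).1 ((mem_nb G _ _).1 h1)))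
      · exact mem_compl.2 (hu' x ((near_comm G _ _).1 ((mem_nb G _ _).1 h1))))
      (by rw [card_union_of_disjoint hd]; exact h2 u u' hu hu')
    simp only [mem_union, mem_nb, not_or] at hxT
    refine ⟨x, hx, fun y => ?_⟩
    by_cases hy : Near G y u
    · exact ⟨u', (alive_insert G S x u').2 ⟨hu', fun h => hxT.2 ((near_comm G _ _).1 h)⟩, hdis y hy⟩
    · exact ⟨u, (alive_insert G S x u).2 ⟨hu, fun h => hxT.1 ((near_comm G _ _).1 h)⟩, hy⟩

end Pool.Agent.P.MP_a0a898_co.Race
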