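import Mathlib
import Pool.Agent.P.MP_a0a898_co.Race

set_option autoImplicit false

namespace Pool.Agent.P.MP_a0a898_co.Race

open Pool.Agent.P.MP_a0a898_co Finset

/-- The grid graph. -/
abbrev Gr (k m : ℕ) : SimpleGraph (Fin k × Fin m) :=
  SimpleGraph.boxProd (SimpleGraph.pathGraph k) (SimpleGraph.pathGraph m)

theorem near_iff {k m : ℕ} (x u : Fin k × Fin m) : Near (Gr k m) x u ↔
    (x.1.val = u.1.val ∧ (x.2.val = u.2.val ∨ x.2.val + 1 = u.2.val ∨ u.2.val + 1 = x.2.val)) ∨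
    (x.2.val = u.2.val ∧ (x.1.val + 1 = u.1.val ∨ u.1.val + 1 = x.1.val)) := by
  unfold Near
  rw [SimpleGraph.boxProd_adj, SimpleGraph.pathGraph_adj, SimpleGraph.pathGraph_adj, Prod.ext_iff]
  simp only [Fin.ext_iff]
  omega

theorem sum_nb {k m : ℕ} (g : ℤ → ℤ → ℕ)
    (hg : ∀ i j : ℤ, ¬ (0 ≤ i ∧ i < k ∧ 0 ≤ j ∧ j < m) → g i j = 0) (x : Fin k × Fin m) :
    ∑ u ∈ nb (Gr k m) x, g u.1.val u.2.val =
      g x.1.val x.2.val + g (x.1.val - 1) x.2.val + g (x.1.val + 1) x.2.val +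
        g x.1.val (x.2.val - 1) + g x.1.val (x.2.val + 1) := by
  classical
  let e : Fin k × Fin m → ℤ × ℤ := fun u => ((u.1.val : ℤ), (u.2.val : ℤ))
  have he : Function.Injective e := by
    intro a b h
    simp only [e, Prod.mk.injEq] at h
    ext <;> omega
  have h1 : ∑ u ∈ nb (Gr k m) x, g u.1.val u.2.val =
      ∑ z ∈ (nb (Gr k m) x).image e, g z.1 z.2 := by
    rw [sum_image (fun a _ b _ h => he h)]
  have h2 : ∑ z ∈ (nb (Gr k m) x).image e, g z.1 z.2 =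
      ∑ z ∈ ({((x.1.val : ℤ), (x.2.val : ℤ)), ((x.1.val : ℤ) - 1, (x.2.val : ℤ)),
        ((x.1.val : ℤ) + 1, (x.2.val : ℤ)), ((x.1.val : ℤ), (x.2.val : ℤ) - 1),
        ((x.1.val : ℤ), (x.2.val : ℤ) + 1)} : Finset (ℤ × ℤ)), g z.1 z.2 := by
    apply sum_subset
    · intro z hz
      obtain ⟨u, hu, rfl⟩ := mem_image.1 hz
      rw [mem_nb, near_iff] at hu
      simp only [e, mem_insert, mem_singleton, Prod.mk.injEq]
      omega
    · intro z hz hn
      apply hg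
      rintro ⟨a1, a2, a3, a4⟩
      apply hn
      refine mem_image.2 ⟨(⟨z.1.toNat, by omega⟩, ⟨z.2.toNat, by omega⟩), ?_, ?_⟩
      · rw [mem_nb, near_iff]
        simp only [mem_insert, mem_singleton, Prod.ext_iff] at hz
        simp only
        omega
      · simp only [e]
        ext <;> simp only <;> omega
  rw [h1, h2, sum_insert, sum_insert, sum_insert, sum_insert, sum_singleton]
  · simp only [add_assoc]
  all_goals
    simp only [mem_insert, mem_singleton, Prod.mk.injEq]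
    omega

theorem card_nb {k m : ℕ} (x : Fin k × Fin m) (h1 : 1 ≤ x.2.val) (h2 : x.2.val + 1 < m) :
    (nb (Gr k m) x).card = 3 + (if 1 ≤ x.1.val then 1 else 0) + (if x.1.val + 1 < k then 1 else 0) := by
  have h := sum_nb (k := k) (m := m)
    (fun i j => if 0 ≤ i ∧ i < k ∧ 0 ≤ j ∧ j < m then 1 else 0) (fun i j h => if_neg h) x
  have h0 : ∑ u ∈ nb (Gr k m) x, (if (0 : ℤ) ≤ (u.1.val : ℤ) ∧ (u.1.val : ℤ) < k ∧
      (0 : ℤ) ≤ (u.2.val : ℤ) ∧ (u.2.val : ℤ) < m then 1 else 0) = (nb (Gr k m) x).card := by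
    rw [card_eq_sum_ones]
    apply sum_congr rfl
    intro u _
    have := u.1.isLt
    have := u.2.isLt
    rw [if_pos (by omega)]
  rw [h0] at h
  have := x.1.isLt
  rw [h]
  split_ifs <;> omega

theorem block {k m : ℕ} (hk : 0 < k) (hm : 0 < m) (S : Finset (Fin k × Fin m))
    (hNC : NoCommon (Gr k m) S)
    (hp : ∀ u u', Alive (Gr k m) S u → Alive (Gr k m) S u' →
      ∃ x, Near (Gr k m) x u ∧ Near (Gr k m) x u') :
    ∃ b : ℕ, ∀ u, Alive (Gr k m) S u → (u.2.val = b ∨ u.2.val = b + 1) ∧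
      ∃ u', Alive (Gr k m) S u' ∧ u'.1.val = u.1.val ∧ u'.2.val + u.2.val = 2 * b + 1 := by
  classical
  let U : Finset (Fin k × Fin m) := univ.filter (fun u => Alive (Gr k m) S u)
  have hU : ∀ u, u ∈ U ↔ Alive (Gr k m) S u := by intro u; simp [U]
  have hne : U.Nonempty := by
    obtain ⟨u, hu, -⟩ := hNC (⟨0, hk⟩, ⟨0, hm⟩)
    exact ⟨u, (hU u).2 hu⟩
  obtain ⟨u1, hu1, m1⟩ := exists_min_image U (fun u => (u.1.val : ℤ) + u.2.val) hne
  obtain ⟨u2, hu2, m2⟩ := exists_max_image U (fun u => (u.1.val : ℤ) + u.2.val) hne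
  obtain ⟨u3, hu3, m3⟩ := exists_min_image U (fun u => (u.1.val : ℤ) - u.2.val) hne
  obtain ⟨u4, hu4, m4⟩ := exists_max_image U (fun u => (u.1.val : ℤ) - u.2.val) hne
  simp only [hU] at hu1 hu2 hu3 hu4 m1 m2 m3 m4
  have d12 : (u2.1.val : ℤ) + u2.2.val ≤ u1.1.val + u1.2.val + 2 := by
    obtain ⟨x, h1, h2⟩ := hp u1 u2 hu1 hu2
    rw [near_iff] at h1 h2
    omega
  have d34 : (u4.1.val : ℤ) - u4.2.val ≤ u3.1.val - u3.2.val + 2 := by
    obtain ⟨x, h1, h2⟩ := hp u3 u4 hu3 hu4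
    rw [near_iff] at h1 h2
    omega
  have no : ∀ p r : ℤ, (u2.1.val : ℤ) + u2.2.val - 1 ≤ p + r → p + r ≤ u1.1.val + u1.2.val + 1 →
      (u4.1.val : ℤ) - u4.2.val - 1 ≤ p - r → p - r ≤ u3.1.val - u3.2.val + 1 → False := by
    intro p r a1 a2 a3 a4
    obtain ⟨u, hu, hx⟩ := hNC (⟨min p.toNat (k - 1), by omega⟩, ⟨min r.toNat (m - 1), by omega⟩)
    apply hx
    rw [near_iff]
    have b1 := m1 u hu
    have b2 := m2 u hu
    have b3 := m3 u hu
    have b4 := m4 u hu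
    have := u.1.isLt
    have := u.2.isLt
    simp only
    omega
  have n1 := no (((u1.1.val : ℤ) + u1.2.val + 1 + (u3.1.val - u3.2.val + 1)) / 2)
    (((u1.1.val : ℤ) + u1.2.val + 1 - (u3.1.val - u3.2.val + 1)) / 2)
  have n2 := no (((u1.1.val : ℤ) + u1.2.val + (u3.1.val - u3.2.val + 1)) / 2)
    (((u1.1.val : ℤ) + u1.2.val - (u3.1.val - u3.2.val + 1)) / 2)
  have n3 := no (((u1.1.val : ℤ) + u1.2.val + 1 + (u3.1.val - u3.2.val)) / 2)
    (((u1.1.val : ℤ) + u1.2.val + 1 - (u3.1.val - u3.2.val)) / 2)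
  have c12 := m1 u2 hu2
  have c34 := m3 u4 hu4
  have par : ((u1.1.val : ℤ) + u1.2.val + (u3.1.val - u3.2.val)) % 2 = 1 := by
    by_contra h
    apply n1 <;> omega
  have e12 : (u2.1.val : ℤ) + u2.2.val = u1.1.val + u1.2.val + 2 := by
    by_contra h
    apply n2 <;> omega
  have e34 : (u4.1.val : ℤ) - u4.2.val = u3.1.val - u3.2.val + 2 := by
    by_contra h
    apply n3 <;> omega
  clear n1 n2 n3 no
  have p13 := m3 u1 hu1
  have p14 := m4 u1 hu1
  have p23 := m3 u2 hu2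
  have p24 := m4 u2 hu2
  have p31 := m1 u3 hu3
  have p32 := m2 u3 hu3
  have p41 := m1 u4 hu4
  have p42 := m2 u4 hu4
  have q3 : u3.1.val = u1.1.val ∧ u3.2.val = u1.2.val + 1 := by omega
  have q2 : u2.1.val = u1.1.val + 1 ∧ u2.2.val = u1.2.val + 1 := by omega
  have q4 : u4.1.val = u1.1.val + 1 ∧ u4.2.val = u1.2.val := by omega
  refine ⟨u1.2.val, fun u hu => ?_⟩
  have b1 := m1 u hu
  have b2 := m2 u hu
  have b3 := m3 u hu
  have b4 := m4 u hu
  have hc : (u.1.val = u1.1.val ∧ u.2.val = u1.2.val) ∨ (u.1.val = u1.1.val ∧ u.2.val = u1.2.val + 1) ∨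
      (u.1.val = u1.1.val + 1 ∧ u.2.val = u1.2.val) ∨
      (u.1.val = u1.1.val + 1 ∧ u.2.val = u1.2.val + 1) := by omega
  rcases hc with h | h | h | h
  · exact ⟨by omega, u3, hu3, by omega, by omega⟩
  · exact ⟨by omega, u1, hu1, by omega, by omega⟩
  · exact ⟨by omega, u2, hu2, by omega, by omega⟩
  · exact ⟨by omega, u4, hu4, by omega, by omega⟩

open Classical in
theorem block_even {k m : ℕ} (S : Finset (Fin k × Fin m)) (b : ℕ)
    (hcol : ∀ u, Alive (Gr k m) S u → 1 ≤ u.2.val ∧ u.2.val + 1 < m)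
    (hb : ∀ u, Alive (Gr k m) S u → (u.2.val = b ∨ u.2.val = b + 1) ∧
      ∃ u', Alive (Gr k m) S u' ∧ u'.1.val = u.1.val ∧ u'.2.val + u.2.val = 2 * b + 1) :
    Even (univ.filter (fun x => ∃ u, Alive (Gr k m) S u ∧ Near (Gr k m) x u)).card := by
  set R := univ.filter (fun x => ∃ u, Alive (Gr k m) S u ∧ Near (Gr k m) x u) with hR
  have hmem : ∀ x, x ∈ R ↔ ∃ u, Alive (Gr k m) S u ∧ Near (Gr k m) x u := by
    intro x; simp [hR]
  have hlt : ∀ x ∈ R, 2 * b + 1 - x.2.val < m ∧ x.2.val ≤ 2 * b + 1 := by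
    intro x hx
    obtain ⟨u, hu, hxu⟩ := (hmem x).1 hx
    obtain ⟨h1, u', hu', h2, h3⟩ := hb u hu
    have := hcol u hu
    have := hcol u' hu'
    rw [near_iff] at hxu
    omega
  have hsum : ∑ _x ∈ R, (1 : ZMod 2) = 0 := by
    refine sum_involution (fun x hx => (x.1, ⟨2 * b + 1 - x.2.val, (hlt x hx).1⟩)) ?_ ?_ ?_ ?_
    · intro a ha
      decide
    · intro a ha _ h
      have h2 := congrArg (fun z => z.2.val) h
      have := hlt a ha
      simp only at h2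
      omega
    · intro x hx
      obtain ⟨u, hu, hxu⟩ := (hmem x).1 hx
      obtain ⟨h1, u', hu', h2, h3⟩ := hb u hu
      refine (hmem _).2 ⟨u', hu', ?_⟩
      have := hlt x hx
      rw [near_iff] at hxu ⊢
      simp only
      omega
    · intro x hx
      have := hlt x hx
      ext
      · rfl
      · simp only
        omega
  rw [sum_const, nsmul_eq_mul, mul_one] at hsum
  exact (ZMod.natCast_eq_zero_iff_even).1 hsum

theorem grid {k m : ℕ} (hk : 2 ≤ k) (hm : 0 < m) (hev : Even (k * m)) (P : ℕ → Prop)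
    (hP : ∀ i i', i < k → i' < k → P i → P i' → ((1 ≤ i ∧ i + 1 < k) ↔ (1 ≤ i' ∧ i' + 1 < k)))
    (g : ℤ → ℤ → ℕ) (hg : ∀ i j : ℤ, ¬ (0 ≤ i ∧ i < k ∧ 0 ≤ j ∧ j < m) → g i j = 0) (q : ℕ)
    (hq : ∀ i j : ℤ, g i j + g (i - 1) j + g (i + 1) j + g i (j - 1) + g i (j + 1) ≤ q)
    (D : ℕ → ℕ → Prop) [∀ i j, Decidable (D i j)]
    (hD : ∀ i j, i < k → j < m → ¬ (1 ≤ j ∧ j + 1 < m ∧ P i) → ∃ a b, a < k ∧ b < m ∧ D a b ∧
      ((a = i ∧ (b = j ∨ b + 1 = j ∨ j + 1 = b)) ∨ (b = j ∧ (a + 1 = i ∨ i + 1 = a))))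
    (c : ℕ → ℕ → ℕ)
    (hc : ∀ i j : ℕ, i < k → j < m → D i j →
      q + (g i j + g (i - 1) j + g (i + 1) j + g i (j - 1) + g i (j + 1)) ≤ c i j)
    (hW : ∑ x : Fin k × Fin m, c x.1.val x.2.val + q < ∑ x : Fin k × Fin m, g x.1.val x.2.val)
    (v : Fin k × Fin m) : ¬ Dominating (Gr k m) {v} ∧ MoverWins (Gr k m) {v} := by
  classical
  refine race (Gr k m) (by simpa using hev) (fun u => 1 ≤ u.2.val ∧ u.2.val + 1 < m ∧ P u.1.val)
    (univ.filter (fun x => D x.1.val x.2.val)) (fun u => g u.1.val u.2.val) q ?_ ?_ ?_ ?_ v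
  · intro x
    rw [sum_nb g hg]
    exact hq _ _
  · intro u hu
    obtain ⟨a, b, ha, hb, hab, hn⟩ := hD u.1.val u.2.val u.1.isLt u.2.isLt hu
    refine ⟨(⟨a, ha⟩, ⟨b, hb⟩), by simpa using hab, ?_⟩
    rw [near_iff]
    exact hn
  · intro S hodd hY hNC
    apply parity (Gr k m) S hodd hNC
    · intro u u' hu hu'
      obtain ⟨a1, a2, a3⟩ := hY u hu
      obtain ⟨b1, b2, b3⟩ := hY u' hu'
      have := hP _ _ u.1.isLt u'.1.isLt a3 b3
      have := u.1.isLt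
      have := u'.1.isLt
      rw [card_nb u a1 a2, card_nb u' b1 b2, Nat.even_iff]
      split_ifs <;> omega
    · intro hp
      obtain ⟨b, hb⟩ := block (by omega) hm S hNC hp
      exact block_even S b (fun u hu => ⟨(hY u hu).1, (hY u hu).2.1⟩) hb
  · refine lt_of_le_of_lt (Nat.add_le_add_right ?_ q) hW
    refine le_trans (sum_le_sum (g := fun x => c x.1.val x.2.val) ?_)
      (sum_le_sum_of_subset (filter_subset _ _))
    intro x hx
    rw [sum_nb g hg]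
    exact hc _ _ x.1.isLt x.2.isLt (by simpa using hx)

end Pool.Agent.P.MP_a0a898_co.Race
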