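import Mathlib
import Pool.Agent.P.MP_a0a898_co.Grid

set_option autoImplicit false

namespace Pool.Agent.P.MP_a0a898_co.Race

open Pool.Agent.P.MP_a0a898_co Finset

theorem sum_grid (k m : ℕ) (F : ℕ → ℕ → ℕ) :
    ∑ x : Fin k × Fin m, F x.1.val x.2.val = ∑ j ∈ range m, ∑ i ∈ range k, F i j := by
  rw [Fintype.sum_prod_type_right, ← Fin.sum_univ_eq_sum_range (fun j => ∑ i ∈ range k, F i j)]
  apply sum_congr rfl
  intro j _
  rw [← Fin.sum_univ_eq_sum_range (fun i => F i j.val)]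

theorem sum_mod (m r c : ℕ) (hr : r < 3) :
    ∑ j ∈ range m, (if j % 3 = r then c else 0) = c * ((m + 2 - r) / 3) := by
  induction m with
  | zero => simp; omega
  | succ n ih =>
    rw [sum_range_succ, ih]
    split_ifs with h
    · rw [show (n + 1 + 2 - r) / 3 = (n + 2 - r) / 3 + 1 by omega]; ring
    · rw [show (n + 1 + 2 - r) / 3 = (n + 2 - r) / 3 by omega]; ring

theorem sum_pt (m b c : ℕ) : ∑ j ∈ range m, (if j = b then c else 0) ≤ c := by
  rw [sum_ite_eq']
  split_ifs <;> omega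

theorem sum_inner (m c : ℕ) :
    ∑ j ∈ range m, (if 1 ≤ j ∧ j + 1 < m then c else 0) = c * (m - 2) := by
  rw [← sum_filter, sum_const, smul_eq_mul, mul_comm]
  congr 1
  have : (range m).filter (fun j => 1 ≤ j ∧ j + 1 < m) = Ico 1 (m - 1) := by
    ext j; simp only [mem_filter, mem_range, mem_Ico]; omega
  rw [this, Nat.card_Ico]; omega

/-- Column form of the final inequality. -/
theorem cols (k m : ℕ) (c : ℕ → ℕ → ℕ) (g : ℤ → ℤ → ℕ) (q A B C W : ℕ)
    (hc : ∀ j, j < m → ∑ i ∈ range k, c i j ≤ (if j % 3 = 0 then A else 0) +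
      (if j % 3 = 1 then B else 0) + (if j = 0 then C else 0) + (if j = m - 1 then C else 0))
    (hg : ∀ j : ℕ, 1 ≤ j → j + 1 < m → W ≤ ∑ i ∈ range k, g i j)
    (h : A * ((m + 2) / 3) + B * ((m + 1) / 3) + 2 * C + q < W * (m - 2)) :
    ∑ x : Fin k × Fin m, c x.1.val x.2.val + q < ∑ x : Fin k × Fin m, g x.1.val x.2.val := by
  rw [sum_grid k m c, sum_grid k m (fun i j => g i j)]
  have h1 : ∑ j ∈ range m, ∑ i ∈ range k, c i j ≤ ∑ j ∈ range m, ((if j % 3 = 0 then A else 0) +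
      (if j % 3 = 1 then B else 0) + (if j = 0 then C else 0) + (if j = m - 1 then C else 0)) :=
    sum_le_sum fun j hj => hc j (mem_range.1 hj)
  rw [sum_add_distrib, sum_add_distrib, sum_add_distrib, sum_mod m 0 A (by omega),
    sum_mod m 1 B (by omega)] at h1
  have h2 := sum_pt m 0 C
  have h3 := sum_pt m (m - 1) C
  have h4 : ∑ j ∈ range m, (if 1 ≤ j ∧ j + 1 < m then W else 0) ≤
      ∑ j ∈ range m, ∑ i ∈ range k, g i j := by
    apply sum_le_sum
    intro j _
    split_ifs with hj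
    · exact hg j hj.1 hj.2
    · omega
  rw [sum_inner] at h4
  rw [show m + 2 - 0 = m + 2 by omega, show m + 2 - 1 = m + 1 by omega] at h1
  omega

theorem gridc {k m : ℕ} (hk : 2 ≤ k) (hm : 0 < m) (hev : Even (k * m)) (P : ℕ → Prop)
    (hP : ∀ i i', i < k → i' < k → P i → P i' → ((1 ≤ i ∧ i + 1 < k) ↔ (1 ≤ i' ∧ i' + 1 < k)))
    (g : ℤ → ℤ → ℕ) (hg : ∀ i j : ℤ, ¬ (0 ≤ i ∧ i < k ∧ 0 ≤ j ∧ j < m) → g i j = 0) (q : ℕ)
    (hq : ∀ i j : ℤ, g i j + g (i - 1) j + g (i + 1) j + g i (j - 1) + g i (j + 1) ≤ q)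
    (D : ℕ → ℕ → Prop) [∀ i j, Decidable (D i j)]
    (hD : ∀ i j, i < k → j < m → ¬ (1 ≤ j ∧ j + 1 < m ∧ P i) → ∃ a b, a < k ∧ b < m ∧ D a b ∧
      ((a = i ∧ (b = j ∨ b + 1 = j ∨ j + 1 = b)) ∨ (b = j ∧ (a + 1 = i ∨ i + 1 = a))))
    (c : ℕ → ℕ → ℕ)
    (hc : ∀ i j : ℕ, i < k → j < m → D i j →
      q + (g i j + g (i - 1) j + g (i + 1) j + g i (j - 1) + g i (j + 1)) ≤ c i j)
    (A B C W : ℕ)
    (hc2 : ∀ j, j < m → ∑ i ∈ range k, c i j ≤ (if j % 3 = 0 then A else 0) +
      (if j % 3 = 1 then B else 0) + (if j = 0 then C else 0) + (if j = m - 1 then C else 0))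
    (hg2 : ∀ j : ℕ, 1 ≤ j → j + 1 < m → W ≤ ∑ i ∈ range k, g i j)
    (h : A * ((m + 2) / 3) + B * ((m + 1) / 3) + 2 * C + q < W * (m - 2))
    (v : Fin k × Fin m) : ¬ Dominating (Gr k m) {v} ∧ MoverWins (Gr k m) {v} :=
  grid hk hm hev P hP g hg q hq D hD c hc (cols k m c g q A B C W hc2 hg2 h) v

theorem case2 (m : ℕ) (hm : 10 ≤ m) (v : Fin 2 × Fin m) :
    ¬ Dominating (Gr 2 m) {v} ∧ MoverWins (Gr 2 m) {v} := by
  refine gridc (k := 2) (m := m) le_rfl (by omega) ⟨m, by ring⟩ (fun _ => True) (by intros; omega)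
    (fun i j => if 0 ≤ i ∧ i < 2 ∧ 1 ≤ j ∧ j + 1 < m then 1 else 0) ?_ 4 ?_
    (fun i j => i = 0 ∧ (j = 0 ∨ j = m - 1)) ?_
    (fun i j => if i = 0 ∧ (j = 0 ∨ j = m - 1) then 5 else 0) ?_ 0 0 5 2 ?_ ?_ (by omega) v
  · intro i j h
    rw [if_neg (by omega)]
  · intro i j
    split_ifs <;> omega
  · intro i j hi hj h
    simp only [and_true] at h
    exact ⟨0, j, by omega, hj, by omega, by omega⟩
  · intro i j hi hj h
    split_ifs <;> omega
  · intro j hj
    simp only [sum_range_succ, sum_range_zero]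
    norm_num
    split_ifs <;> omega
  · intro j h1 h2
    simp only [sum_range_succ, sum_range_zero]
    split_ifs <;> omega

theorem case3 (m : ℕ) (hm : 70 ≤ m) (hev : Even (3 * m)) (v : Fin 3 × Fin m) :
    ¬ Dominating (Gr 3 m) {v} ∧ MoverWins (Gr 3 m) {v} := by
  refine gridc (k := 3) (m := m) (by omega) (by omega) hev (fun i => i ≠ 1) (by intros; omega)
    (fun i j => if (i = 0 ∨ i = 2) ∧ 1 ≤ j ∧ j + 1 < m then 1 else 0) ?_ 3 ?_
    (fun i j => i = 1 ∧ (j % 3 = 0 ∨ j = m - 1)) ?_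
    (fun i j => if i = 1 ∧ (j % 3 = 0 ∨ j = m - 1) then 5 else 0) ?_ 5 0 5 2 ?_ ?_ (by omega) v
  · intro i j h
    rw [if_neg (by omega)]
  · intro i j
    split_ifs <;> omega
  · intro i j hi hj h
    by_cases h0 : j % 3 = 0 ∨ j = m - 1
    · exact ⟨1, j, by omega, hj, by omega, by omega⟩
    · by_cases h1 : j % 3 = 1
      · exact ⟨1, j - 1, by omega, by omega, by omega, by omega⟩
      · exact ⟨1, j + 1, by omega, by omega, by omega, by omega⟩
  · intro i j hi hj h
    split_ifs <;> omega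
  · intro j hj
    simp only [sum_range_succ, sum_range_zero]
    norm_num
    split_ifs <;> omega
  · intro j h1 h2
    simp only [sum_range_succ, sum_range_zero]
    split_ifs <;> omega

/-- Weights for width five. -/
def g5 (m : ℕ) (i j : ℤ) : ℕ :=
  if 1 ≤ j ∧ j + 1 < m then
    (if i = 2 then 1 else if j % 3 = 2 then (if i = 1 ∨ i = 3 then 2 else 0)
      else if (i = 1 ∧ j % 3 = 1) ∨ (i = 3 ∧ j % 3 = 0) then 4 else 0)
  else 0

/-- Weights for width five without the ends. -/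
def h5 (i j : ℤ) : ℕ :=
  if i = 2 then 1 else if j % 3 = 2 then (if i = 1 ∨ i = 3 then 2 else 0)
      else if (i = 1 ∧ j % 3 = 1) ∨ (i = 3 ∧ j % 3 = 0) then 4 else 0

theorem g5_le (m : ℕ) (i j : ℤ) : g5 m i j ≤ h5 i j := by
  unfold g5 h5
  by_cases h : 1 ≤ j ∧ j + 1 < m
  · rw [if_pos h]
  · rw [if_neg h]; omega

theorem h5_out (i j : ℤ) (h : i ≤ 0 ∨ 4 ≤ i) : h5 i j = 0 := by
  unfold h5; split_ifs <;> omega

theorem h5_one (j : ℤ) (h : j % 3 = 0) : h5 1 j = 0 := by
  unfold h5; split_ifs <;> omega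

theorem h5_three (j : ℤ) (h : j % 3 = 1) : h5 3 j = 0 := by
  unfold h5; split_ifs <;> omega

theorem h5_col (j : ℤ) : h5 1 j + h5 3 j = 4 := by
  unfold h5; split_ifs <;> omega

theorem h5_two (j : ℤ) : h5 2 j = 1 := by
  unfold h5; simp

theorem h5_row1 (j : ℤ) : h5 1 (j - 1) + h5 1 j + h5 1 (j + 1) = 6 := by
  have hj : j % 3 = 0 ∨ j % 3 = 1 ∨ j % 3 = 2 := by omega
  unfold h5
  norm_num
  rcases hj with g | g | g <;> split_ifs <;> omega

theorem h5_row3 (j : ℤ) : h5 3 (j - 1) + h5 3 j + h5 3 (j + 1) = 6 := by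
  have hj : j % 3 = 0 ∨ j % 3 = 1 ∨ j % 3 = 2 := by omega
  unfold h5
  norm_num
  rcases hj with g | g | g <;> split_ifs <;> omega

theorem h5_five (i j : ℤ) :
    h5 i j + h5 (i - 1) j + h5 (i + 1) j + h5 i (j - 1) + h5 i (j + 1) ≤ 7 := by
  have hi : i ≤ -1 ∨ i = 0 ∨ i = 1 ∨ i = 2 ∨ i = 3 ∨ i = 4 ∨ 5 ≤ i := by omega
  have c := h5_col j
  have r1 := h5_row1 j
  have r3 := h5_row3 j
  have t1 := h5_two j
  have t2 := h5_two (j - 1)
  have t3 := h5_two (j + 1)
  rcases hi with h | rfl | rfl | rfl | rfl | rfl | h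
  · rw [h5_out _ _ (by omega), h5_out _ _ (by omega), h5_out _ _ (by omega), h5_out _ _ (by omega),
      h5_out _ _ (by omega)]
    omega
  · rw [h5_out 0 _ (by omega), h5_out (0 - 1) _ (by omega), h5_out 0 _ (by omega),
      h5_out 0 _ (by omega), show (0 : ℤ) + 1 = 1 by norm_num]
    omega
  · rw [h5_out (1 - 1) _ (by omega), show (1 : ℤ) + 1 = 2 by norm_num]
    omega
  · rw [show (2 : ℤ) + 1 = 3 by norm_num, show (2 : ℤ) - 1 = 1 by norm_num]
    omega
  · rw [h5_out (3 + 1) _ (by omega), show (3 : ℤ) - 1 = 2 by norm_num]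
    omega
  · rw [h5_out 4 _ (by omega), h5_out (4 + 1) _ (by omega), h5_out 4 _ (by omega),
      h5_out 4 _ (by omega), show (4 : ℤ) - 1 = 3 by norm_num]
    omega
  · rw [h5_out _ _ (by omega), h5_out _ _ (by omega), h5_out _ _ (by omega), h5_out _ _ (by omega),
      h5_out _ _ (by omega)]
    omega

theorem g5_out (m : ℕ) (i j : ℤ) (h : j ≤ 0 ∨ (m : ℤ) ≤ j + 1) : g5 m i j = 0 := by
  unfold g5; rw [if_neg (by omega)]

theorem g5_in (m : ℕ) (i j : ℤ) (h1 : 1 ≤ j) (h2 : j + 1 < m) : g5 m i j = h5 i j := by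
  unfold g5 h5; rw [if_pos ⟨h1, h2⟩]

theorem case5 (m : ℕ) (hm : 190 ≤ m) (hev : Even (5 * m)) (v : Fin 5 × Fin m) :
    ¬ Dominating (Gr 5 m) {v} ∧ MoverWins (Gr 5 m) {v} := by
  refine gridc (k := 5) (m := m) (by omega) (by omega) hev (fun i => 1 ≤ i ∧ i ≤ 3) (by intros; omega)
    (g5 m) ?_ 7 ?_
    (fun i j => (i = 0 ∧ j % 3 = 0) ∨ (i = 4 ∧ j % 3 = 1) ∨ ((i = 1 ∨ i = 3) ∧ (j = 0 ∨ j = m - 1))) ?_
    (fun i j => if (i = 0 ∧ j % 3 = 0) ∨ (i = 4 ∧ j % 3 = 1) then 7 else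
      if (i = 1 ∨ i = 3) ∧ j = 0 then 7 + h5 i 1 else
      if (i = 1 ∨ i = 3) ∧ j = m - 1 then 7 + h5 i (j - 1) else 0) ?_ 7 7 18 5 ?_ ?_ (by omega) v
  · intro i j h
    by_cases h1 : j ≤ 0 ∨ (m : ℤ) ≤ j + 1
    · exact g5_out m i j h1
    · rw [g5_in m i j (by omega) (by omega)]
      exact h5_out i j (by omega)
  · intro i j
    have := h5_five i j
    have := g5_le m i j
    have := g5_le m (i - 1) j
    have := g5_le m (i + 1) j
    have := g5_le m i (j - 1)
    have := g5_le m i (j + 1)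
    omega
  · intro i j hi hj h
    by_cases h0 : j = 0 ∨ j = m - 1
    · by_cases h1 : i ≤ 2
      · exact ⟨1, j, by omega, hj, by omega, by omega⟩
      · exact ⟨3, j, by omega, hj, by omega, by omega⟩
    · have hj3 : j % 3 = 0 ∨ j % 3 = 1 ∨ j % 3 = 2 := by omega
      by_cases h1 : i = 0
      · rcases hj3 with g | g | g
        · exact ⟨0, j, by omega, hj, by omega, by omega⟩
        · exact ⟨0, j - 1, by omega, by omega, by omega, by omega⟩
        · exact ⟨0, j + 1, by omega, by omega, by omega, by omega⟩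
      · rcases hj3 with g | g | g
        · exact ⟨4, j + 1, by omega, by omega, by omega, by omega⟩
        · exact ⟨4, j, by omega, by omega, by omega, by omega⟩
        · exact ⟨4, j - 1, by omega, by omega, by omega, by omega⟩
  · intro i j hi hj h
    have a1 := g5_le m i j
    have a2 := g5_le m (i - 1) j
    have a3 := g5_le m (i + 1) j
    have a4 := g5_le m i (j - 1)
    have a5 := g5_le m i (j + 1)
    rcases h with h | h | ⟨h, h' | h'⟩
    · rw [if_pos (Or.inl h)]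
      rw [h5_out _ _ (by omega)] at a1 a2 a4 a5
      have e : h5 ((i : ℤ) + 1) j = 0 := by
        rw [show (i : ℤ) + 1 = 1 by omega]; exact h5_one _ (by omega)
      omega
    · rw [if_pos (Or.inr h)]
      rw [h5_out _ _ (by omega)] at a1 a3 a4 a5
      have e : h5 ((i : ℤ) - 1) j = 0 := by
        rw [show (i : ℤ) - 1 = 3 by omega]; exact h5_three _ (by omega)
      omega
    · rw [if_neg (by omega), if_pos ⟨h, h'⟩, g5_out m i j (by omega), g5_out m (i - 1) j (by omega),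
        g5_out m (i + 1) j (by omega), g5_out m i (j - 1) (by omega)]
      rw [show (j : ℤ) + 1 = 1 by omega] at a5 ⊢
      omega
    · rw [if_neg (by omega), if_neg (by omega), if_pos ⟨h, h'⟩, g5_out m i j (by omega),
        g5_out m (i - 1) j (by omega),
        g5_out m (i + 1) j (by omega), g5_out m i (j + 1) (by omega)]
      omega
  · intro j hj
    have := h5_col 1
    have := h5_col ((j : ℤ) - 1)
    simp only [sum_range_succ, sum_range_zero]
    norm_num
    split_ifs <;> omega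
  · intro j h1 h2
    have := h5_col j
    have := h5_two j
    simp only [sum_range_succ, sum_range_zero]
    norm_num
    rw [g5_in m 1 j (by omega) (by omega), g5_in m 2 j (by omega) (by omega),
      g5_in m 3 j (by omega) (by omega)]
    omega

/-- Row weights for width six. -/
def r6 (i : ℤ) : ℕ := if i = 1 ∨ i = 4 then 3 else if i = 2 ∨ i = 3 then 2 else 0

theorem r6_five (i : ℤ) : 3 * r6 i + r6 (i - 1) + r6 (i + 1) ≤ 11 := by
  unfold r6; split_ifs <;> omega

theorem r6_le (i : ℤ) : r6 i ≤ 3 := by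
  unfold r6; split_ifs <;> omega

theorem r6_out (i : ℤ) (h : i ≤ 0 ∨ 5 ≤ i) : r6 i = 0 := by
  unfold r6; split_ifs <;> omega

theorem case6 (m : ℕ) (hm : 170 ≤ m) (v : Fin 6 × Fin m) :
    ¬ Dominating (Gr 6 m) {v} ∧ MoverWins (Gr 6 m) {v} := by
  refine gridc (k := 6) (m := m) (by omega) (by omega) ⟨3 * m, by ring⟩ (fun i => 1 ≤ i ∧ i ≤ 4)
    (by intros; omega)
    (fun i j => if 1 ≤ j ∧ j + 1 < m then r6 i else 0) ?_ 11 ?_
    (fun i j => ((i = 0 ∨ i = 5) ∧ j % 3 = 0) ∨ ((i = 1 ∨ i = 4) ∧ (j = 0 ∨ j = m - 1))) ?_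
    (fun i j => if ((i = 0 ∨ i = 5) ∧ j % 3 = 0) ∨ ((i = 1 ∨ i = 4) ∧ (j = 0 ∨ j = m - 1))
      then 14 else 0) ?_ 28 0 28 10 ?_ ?_ (by omega) v
  · intro i j h
    split_ifs with h1
    · exact r6_out i (by omega)
    · rfl
  · intro i j
    have := r6_five i
    split_ifs <;> omega
  · intro i j hi hj h
    by_cases h0 : j = 0 ∨ j = m - 1
    · by_cases h1 : i ≤ 2
      · exact ⟨1, j, by omega, hj, by omega, by omega⟩
      · exact ⟨4, j, by omega, hj, by omega, by omega⟩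
    · have hj3 : j % 3 = 0 ∨ j % 3 = 1 ∨ j % 3 = 2 := by omega
      rcases hj3 with g | g | g
      · exact ⟨i, j, by omega, hj, by omega, by omega⟩
      · exact ⟨i, j - 1, by omega, by omega, by omega, by omega⟩
      · exact ⟨i, j + 1, by omega, by omega, by omega, by omega⟩
  · intro i j hi hj h
    rw [if_pos h]
    have a1 := r6_le i
    have a2 := r6_le (i - 1)
    have a3 := r6_le (i + 1)
    rcases h with ⟨h | h, h'⟩ | ⟨h, h'⟩
    · have := r6_out i (by omega)
      have := r6_out (i - 1) (by omega)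
      split_ifs <;> omega
    · have := r6_out i (by omega)
      have := r6_out (i + 1) (by omega)
      split_ifs <;> omega
    · split_ifs <;> omega
  · intro j hj
    simp only [sum_range_succ, sum_range_zero]
    norm_num
    split_ifs <;> omega
  · intro j h1 h2
    have e : (1 : ℤ) ≤ (j : ℤ) ∧ (j : ℤ) + 1 < m := by omega
    simp only [sum_range_succ, sum_range_zero, if_pos e]
    decide

theorem caseBig (k m : ℕ) (hk : 7 ≤ k) (hm : 7 ≤ m) (hkm : 100 ≤ k + m) (hev : Even (k * m))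
    (v : Fin k × Fin m) : ¬ Dominating (Gr k m) {v} ∧ MoverWins (Gr k m) {v} := by
  refine grid (k := k) (m := m) (by omega) (by omega) hev (fun i => 1 ≤ i ∧ i + 1 < k)
    (by intros; omega)
    (fun i j => if 1 ≤ j ∧ j + 1 < m ∧ 1 ≤ i ∧ i + 1 < k then 1 else 0) ?_ 5 ?_
    (fun i j => ((i = 0 ∨ i = k - 1) ∧ (j % 3 = 0 ∨ j = m - 1)) ∨
      ((j = 0 ∨ j = m - 1) ∧ (i % 3 = 0 ∨ i = k - 1))) ?_
    (fun i j => ((if i = 0 then 1 else 0) + (if i = k - 1 then 1 else 0)) *
        ((if j % 3 = 0 then 6 else 0) + (if j = m - 1 then 6 else 0)) +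
      ((if i % 3 = 0 then 6 else 0) + (if i = k - 1 then 6 else 0)) *
        ((if j = 0 then 1 else 0) + (if j = m - 1 then 1 else 0))) ?_ ?_ v
  · intro i j h
    rw [if_neg (by omega)]
  · intro i j
    split_ifs <;> omega
  · intro i j hi hj h
    by_cases h0 : i = 0 ∨ i = k - 1
    · by_cases g0 : j % 3 = 0 ∨ j = m - 1
      · exact ⟨i, j, by omega, hj, by omega, by omega⟩
      · by_cases g1 : j % 3 = 1
        · exact ⟨i, j - 1, by omega, by omega, by omega, by omega⟩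
        · exact ⟨i, j + 1, by omega, by omega, by omega, by omega⟩
    · by_cases g0 : i % 3 = 0
      · exact ⟨i, j, by omega, hj, by omega, by omega⟩
      · by_cases g1 : i % 3 = 1
        · exact ⟨i - 1, j, by omega, by omega, by omega, by omega⟩
        · exact ⟨i + 1, j, by omega, by omega, by omega, by omega⟩
  · intro i j hi hj h
    have h6 : 6 ≤ ((if i = 0 then 1 else 0) + (if i = k - 1 then 1 else 0)) *
        ((if j % 3 = 0 then 6 else 0) + (if j = m - 1 then 6 else 0)) +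
      ((if i % 3 = 0 then 6 else 0) + (if i = k - 1 then 6 else 0)) *
        ((if j = 0 then 1 else 0) + (if j = m - 1 then 1 else 0)) := by
      split_ifs <;> omega
    refine le_trans ?_ h6
    split_ifs <;> omega
  · rw [sum_grid k m (fun i j => ((if i = 0 then 1 else 0) + (if i = k - 1 then 1 else 0)) *
        ((if j % 3 = 0 then 6 else 0) + (if j = m - 1 then 6 else 0)) +
      ((if i % 3 = 0 then 6 else 0) + (if i = k - 1 then 6 else 0)) *
        ((if j = 0 then 1 else 0) + (if j = m - 1 then 1 else 0))),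
      sum_grid k m (fun i j => if 1 ≤ (j : ℤ) ∧ (j : ℤ) + 1 < m ∧ 1 ≤ (i : ℤ) ∧ (i : ℤ) + 1 < k
        then 1 else 0)]
    have e1 : ∑ j ∈ range m, ∑ i ∈ range k,
        (if 1 ≤ (j : ℤ) ∧ (j : ℤ) + 1 < m ∧ 1 ≤ (i : ℤ) ∧ (i : ℤ) + 1 < k then 1 else 0) =
        (k - 2) * (m - 2) := by
      rw [← sum_inner m (k - 2)]
      apply sum_congr rfl
      intro j _
      split_ifs with hj
      · have := sum_inner k 1
        rw [one_mul] at this
        rw [← this]
        apply sum_congr rfl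
        intro i _
        split_ifs <;> omega
      · apply sum_eq_zero
        intro i _
        rw [if_neg (by omega)]
    rw [e1]
    simp only [sum_add_distrib, ← sum_mul, ← mul_sum]
    rw [sum_mod m 0 6 (by omega), sum_mod k 0 6 (by omega)]
    have p1 := sum_pt k 0 1
    have p2 := sum_pt k (k - 1) 1
    have p3 := sum_pt m (m - 1) 6
    have p4 := sum_pt k (k - 1) 6
    have p5 := sum_pt m 0 1
    have p6 := sum_pt m (m - 1) 1
    have q1 : (∑ i ∈ range k, (if i = 0 then 1 else 0) + ∑ i ∈ range k, (if i = k - 1 then 1 else 0)) *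
        (6 * ((m + 2 - 0) / 3) + ∑ j ∈ range m, (if j = m - 1 then 6 else 0)) ≤ 2 * (2 * m + 10) :=
      Nat.mul_le_mul (by omega) (by omega)
    have q2 : (6 * ((k + 2 - 0) / 3) + ∑ i ∈ range k, (if i = k - 1 then 6 else 0)) *
        (∑ j ∈ range m, (if j = 0 then 1 else 0) + ∑ j ∈ range m, (if j = m - 1 then 1 else 0)) ≤
        (2 * k + 10) * 2 :=
      Nat.mul_le_mul (by omega) (by omega)
    obtain ⟨a, rfl⟩ : ∃ a, k = a + 7 := ⟨k - 7, by omega⟩
    obtain ⟨b, rfl⟩ : ∃ b, m = b + 7 := ⟨m - 7, by omega⟩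
    have e2 : (a + 7 - 2) * (b + 7 - 2) = a * b + 5 * a + 5 * b + 25 := by
      rw [show a + 7 - 2 = a + 5 by omega, show b + 7 - 2 = b + 5 by omega]; ring
    rw [e2]
    omega

theorem moverWins_iso {V W : Type} {G : SimpleGraph V} {H : SimpleGraph W} (e : G ≃g H) :
    (∀ S : Set V, Dominating G S ↔ Dominating H (e '' S)) ∧
      ∀ S : Set V, MoverWins G S → MoverWins H (e '' S) := by
  have hd : ∀ S : Set V, Dominating G S ↔ Dominating H (e '' S) := by
    intro S
    constructor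
    · intro h w
      obtain ⟨v, rfl⟩ := e.surjective w
      rcases h v with h1 | ⟨u, hu, hadj⟩
      · exact Or.inl ⟨v, h1, rfl⟩
      · exact Or.inr ⟨e u, ⟨u, hu, rfl⟩, e.map_adj_iff.2 hadj⟩
    · intro h v
      rcases h (e v) with ⟨u, hu, he⟩ | ⟨_, ⟨u, hu, rfl⟩, hadj⟩
      · exact Or.inl (e.injective he ▸ hu)
      · exact Or.inr ⟨u, hu, e.map_adj_iff.1 hadj⟩
  have hm : ∀ (S : Set V) (v : V), e v ∈ e '' S ↔ v ∈ S := fun S v =>
    Function.Injective.mem_set_image e.injective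
  refine ⟨hd, fun S h => ?_⟩
  induction h with
  | finish S v hv hdom =>
    refine MoverWins.finish _ (e v) (fun h => hv ((hm S v).1 h)) ?_
    rw [← Set.image_insert_eq]
    exact (hd _).1 hdom
  | step S v hv hgo hreply _ ih =>
    refine MoverWins.step _ (e v) (fun h => hv ((hm S v).1 h)) ?_ ?_ ?_
    · rw [← Set.image_insert_eq]
      exact fun h => hgo ((hd _).2 h)
    · intro w hw
      obtain ⟨u, rfl⟩ := e.surjective w
      rw [← Set.image_insert_eq] at hw ⊢
      rw [← Set.image_insert_eq]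
      exact fun h => hreply u (fun h2 => hw ((hm _ u).2 h2)) ((hd _).2 h)
    · intro w hw
      obtain ⟨u, rfl⟩ := e.surjective w
      rw [← Set.image_insert_eq] at hw ⊢
      rw [← Set.image_insert_eq]
      exact ih u (fun h2 => hw ((hm _ u).2 h2))

theorem swap {k m : ℕ}
    (h : ∀ v : Fin k × Fin m, ¬ Dominating (Gr k m) {v} ∧ MoverWins (Gr k m) {v})
    (v : Fin m × Fin k) : ¬ Dominating (Gr m k) {v} ∧ MoverWins (Gr m k) {v} := by
  let e : Gr k m ≃g Gr m k := SimpleGraph.boxProdComm _ _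
  obtain ⟨u, rfl⟩ := e.surjective v
  obtain ⟨h1, h2⟩ := moverWins_iso e
  have a := h1 {u}
  have b := h2 {u} (h u).2
  rw [Set.image_singleton] at a b
  exact ⟨fun hd => (h u).1 (a.2 hd), b⟩

theorem narrow (k m : ℕ) (hk : 2 ≤ k) (hk6 : k ≤ 6) (hk4 : k ≠ 4) (hev : Even (k * m))
    (hkm : 200 ≤ k + m) (v : Fin k × Fin m) :
    ¬ Dominating (Gr k m) {v} ∧ MoverWins (Gr k m) {v} := by
  have : k = 2 ∨ k = 3 ∨ k = 5 ∨ k = 6 := by omega
  rcases this with rfl | rfl | rfl | rfl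
  · exact case2 m (by omega) v
  · exact case3 m (by omega) hev v
  · exact case5 m (by omega) hev v
  · exact case6 m (by omega) v

theorem large (k m : ℕ) (hk : 2 ≤ k) (hm : 2 ≤ m) (hev : Even (k * m)) (hk4 : k ≠ 4) (hm4 : m ≠ 4)
    (hkm : 200 ≤ k + m) (v : Fin k × Fin m) :
    ¬ Dominating (Gr k m) {v} ∧ MoverWins (Gr k m) {v} := by
  by_cases h1 : k ≤ 6
  · exact narrow k m hk h1 hk4 hev hkm v
  by_cases h2 : m ≤ 6
  · exact swap (narrow m k hm h2 hm4 (by rwa [mul_comm]) (by omega)) v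
  exact caseBig k m (by omega) (by omega) (by omega) hev v

end Pool.Agent.P.MP_a0a898_co.Race
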